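import Mathlib

/-!
Elementary calculus of the numbers `C(n+i,2i) C(2i,i)`, used for the sums of squares of the
numbers `R_n` and `W_n`.
-/

namespace Pool.Agent.R507.C292

open Finset

/-- The numbers `C(n+i,2i) C(2i,i)`. -/
def b (n i : ℕ) : ℕ := (n + i).choose (2 * i) * (2 * i).choose i

lemma b_zero (n : ℕ) : b n 0 = 1 := by simp [b]

lemma b_eq_zero {n i : ℕ} (h : n < i) : b n i = 0 := by
  unfold b
  rw [Nat.choose_eq_zero_of_lt (by omega)]
  simp

/-- First-order relation in `n`. -/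
lemma b_succ (n i : ℕ) :
    ((n : ℚ) + 1 - i) * (b (n + 1) i : ℚ) = ((n : ℚ) + 1 + i) * (b n i : ℚ) := by
  rcases Nat.lt_or_ge (n + 1) i with h | h
  · rw [b_eq_zero h, b_eq_zero (by omega : n < i)]
    simp
  · have h1 := Nat.choose_mul_succ_eq (n + i) (2 * i)
    have h2 : n + i + 1 - 2 * i = n + 1 - i := by omega
    rw [h2] at h1
    have h3 : (((n + i).choose (2 * i) : ℕ) : ℚ) * ((n : ℚ) + i + 1)
        = (((n + i + 1).choose (2 * i) : ℕ) : ℚ) * ((n : ℚ) + 1 - i) := by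
      have := congrArg (Nat.cast : ℕ → ℚ) h1
      push_cast [Nat.cast_sub h] at this
      exact this
    unfold b
    rw [show n + 1 + i = n + i + 1 by ring]
    push_cast
    linear_combination (-((2 * i).choose i : ℚ)) * h3

/-- Second relation: the second difference in `n` lowers `i`. -/
lemma b_lower (m j : ℕ) :
    ((j : ℚ) + 1) * ((b (m + 2) (j + 1) : ℚ) - b m (j + 1))
      = 2 * (2 * m + 3) * (b (m + 1) j : ℚ) := by
  unfold b
  have e1 : m + 2 + (j + 1) = (m + j + 1) + 2 := by ring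
  have e2 : m + (j + 1) = m + j + 1 := by ring
  have e3 : m + 1 + j = m + j + 1 := by ring
  have e4 : 2 * (j + 1) = 2 * j + 2 := by ring
  rw [e1, e2, e3, e4]
  set N := m + j + 1 with hN
  have hp : (N + 2).choose (2 * j + 2)
      = N.choose (2 * j) + 2 * N.choose (2 * j + 1) + N.choose (2 * j + 2) := by
    rw [Nat.choose_succ_succ (N + 1) (2 * j + 1), Nat.choose_succ_succ N (2 * j),
      Nat.choose_succ_succ N (2 * j + 1)]
    ring
  have hc : (j + 1) * (2 * j + 2).choose (j + 1) = 2 * (2 * j + 1) * (2 * j).choose j := by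
    have := Nat.succ_mul_centralBinom_succ j
    simpa [Nat.centralBinom, Nat.mul_add] using this
  have hq : (N.choose (2 * j + 1) : ℚ) * (2 * j + 1) = (N.choose (2 * j) : ℚ) * ((N : ℚ) - 2 * j) := by
    rcases Nat.lt_or_ge N (2 * j) with h | h
    · rw [Nat.choose_eq_zero_of_lt (by omega : N < 2 * j),
        Nat.choose_eq_zero_of_lt (by omega : N < 2 * j + 1)]
      simp
    · have h1 := Nat.choose_succ_right_eq N (2 * j)
      have := congrArg (Nat.cast : ℕ → ℚ) h1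
      push_cast [Nat.cast_sub h] at this
      exact this
  have hcq : ((j : ℚ) + 1) * ((2 * j + 2).choose (j + 1) : ℚ)
      = 2 * (2 * j + 1) * ((2 * j).choose j : ℚ) := by exact_mod_cast hc
  have hNq : (N : ℚ) = m + j + 1 := by rw [hN]; push_cast; ring
  rw [hp]
  push_cast
  have : ((j : ℚ) + 1) * (((N.choose (2 * j) : ℚ) + 2 * N.choose (2 * j + 1)
        + N.choose (2 * j + 2)) * ((2 * j + 2).choose (j + 1) : ℚ)
        - N.choose (2 * j + 2) * ((2 * j + 2).choose (j + 1) : ℚ))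
      = ((N.choose (2 * j) : ℚ) + 2 * N.choose (2 * j + 1))
        * (((j : ℚ) + 1) * ((2 * j + 2).choose (j + 1) : ℚ)) := by ring
  rw [this, hcq]
  have h5 : ((N.choose (2 * j) : ℚ) + 2 * N.choose (2 * j + 1)) * (2 * (2 * j + 1) * ((2 * j).choose j : ℚ))
      = 2 * ((2 * j).choose j : ℚ) * ((2 * j + 1) * (N.choose (2 * j) : ℚ)
        + 2 * ((N.choose (2 * j + 1) : ℚ) * (2 * j + 1))) := by ring
  rw [h5, hq, hNq]
  ring

/-- The sum `∑_i b(n,i) f(i)`. -/
noncomputable def T (f : ℕ → ℚ) (n : ℕ) : ℚ := ∑ i ∈ range (n + 1), (b n i : ℚ) * f i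

lemma T_eq (f : ℕ → ℚ) {n N : ℕ} (h : n + 1 ≤ N) :
    T f n = ∑ i ∈ range N, (b n i : ℚ) * f i := by
  unfold T
  refine Finset.sum_subset (by intro x hx; simp at hx ⊢; omega) ?_
  intro x _ hx
  simp at hx
  rw [b_eq_zero (by omega)]
  simp

/-- First-order relation for `∑_i b(n,i)/(2i+s)`. -/
lemma T_first (s : ℚ) (hs : ∀ i : ℕ, (2 * (i : ℚ) + s) ≠ 0) (n : ℕ) :
    (2 * ((n : ℚ) + 1) + s) * T (fun i => 1 / (2 * (i : ℚ) + s)) (n + 1)
      - (2 * ((n : ℚ) + 1) - s) * T (fun i => 1 / (2 * (i : ℚ) + s)) n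
      = T (fun _ => 1) (n + 1) + T (fun _ => 1) n := by
  rw [T_eq _ (le_refl (n + 1 + 1)), T_eq _ (by omega : n + 1 ≤ n + 1 + 1),
    T_eq (fun _ => 1) (le_refl (n + 1 + 1)), T_eq (fun _ => 1) (by omega : n + 1 ≤ n + 1 + 1),
    Finset.mul_sum, Finset.mul_sum, ← Finset.sum_sub_distrib, ← Finset.sum_add_distrib]
  refine Finset.sum_congr rfl ?_
  intro i _
  have h := b_succ n i
  have hi := hs i
  field_simp
  linear_combination 2 * h

/-- Second-order relation. -/
lemma T_second (f : ℕ → ℚ) (n : ℕ) :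
    ((n : ℚ) + 2) * (T f (n + 2) - T f (n + 1)) - ((n : ℚ) + 1) * (T f (n + 1) - T f n)
      = 2 * (2 * n + 3) * T (fun i => f (i + 1)) (n + 1) := by
  rw [T_eq f (le_refl (n + 2 + 1)), T_eq f (by omega : n + 1 + 1 ≤ n + 2 + 1),
    T_eq f (by omega : n + 1 ≤ n + 2 + 1)]
  unfold T
  rw [← Finset.sum_sub_distrib, ← Finset.sum_sub_distrib, Finset.mul_sum, Finset.mul_sum,
    ← Finset.sum_sub_distrib, Finset.sum_range_succ']
  have h0 : ((n : ℚ) + 2) * ((b (n + 2) 0 : ℚ) * f 0 - (b (n + 1) 0 : ℚ) * f 0)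
      - ((n : ℚ) + 1) * ((b (n + 1) 0 : ℚ) * f 0 - (b n 0 : ℚ) * f 0) = 0 := by
    simp [b_zero]
  rw [h0, add_zero, Finset.mul_sum]
  refine Finset.sum_congr rfl ?_
  intro j _
  have h1 := b_succ n (j + 1)
  have h2 := b_succ (n + 1) (j + 1)
  have h3 := b_lower n j
  push_cast at h1 h2
  rw [show n + 1 + 1 = n + 2 by ring] at h2
  linear_combination (f (j + 1)) * (h2 - h1) + (f (j + 1)) * h3

end Pool.Agent.R507.C292
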