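import Mathlib
import Pool.Agent.R507.C292.Basic

/-!
The sequences `R_n`, `W_n`, the central Delannoy numbers, their linear relations, and the closed
forms of the sums of `(2k+1) R_k^2` and `(2k+1) W_k^2`.
-/

namespace Pool.Agent.R507.C292

open Finset

/-- `R_n = ∑_{k=0}^n C(n+k,2k) C(2k,k)/(2k-1)`. -/
noncomputable def R (n : ℕ) : ℚ :=
  ∑ k ∈ range (n + 1), (((n + k).choose (2 * k) : ℚ) * ((2 * k).choose k : ℚ)) / (2 * (k : ℚ) - 1)

/-- `W_n = ∑_{k=0}^n C(n+k,2k) C(2k,k) 3/(2k-3)`. -/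
noncomputable def W (n : ℕ) : ℚ :=
  ∑ k ∈ range (n + 1), (((n + k).choose (2 * k) : ℚ) * ((2 * k).choose k : ℚ)) * 3 / (2 * (k : ℚ) - 3)

noncomputable def D (n : ℕ) : ℚ := T (fun _ => 1) n

noncomputable def E (n : ℕ) : ℚ := T (fun i => (-2) ^ i) n

lemma R_eq (n : ℕ) : R n = T (fun i => 1 / (2 * (i : ℚ) + (-1))) n := by
  unfold R T b
  refine Finset.sum_congr rfl ?_
  intro i _
  push_cast
  rw [show 2 * (i : ℚ) - 1 = 2 * (i : ℚ) + (-1) by ring]
  ring

lemma W_eq (n : ℕ) : W n = 3 * T (fun i => 1 / (2 * (i : ℚ) + (-3))) n := by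
  unfold W T b
  rw [Finset.mul_sum]
  refine Finset.sum_congr rfl ?_
  intro i _
  push_cast
  rw [show 2 * (i : ℚ) - 3 = 2 * (i : ℚ) + (-3) by ring]
  ring

lemma odd_ne (i : ℕ) (s : ℤ) (hs : s % 2 = 1) : (2 * (i : ℚ) + (s : ℚ)) ≠ 0 := by
  intro h
  have h2 : (2 * (i : ℤ) + s : ℤ) = 0 := by exact_mod_cast h
  omega

lemma relR (n : ℕ) : (2 * (n : ℚ) + 1) * R (n + 1) - (2 * (n : ℚ) + 3) * R n = D (n + 1) + D n := by
  have h := T_first (-1) (fun i => by simpa using odd_ne i (-1) (by norm_num)) n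
  rw [R_eq, R_eq]
  unfold D
  linear_combination h

lemma relW (n : ℕ) :
    (2 * (n : ℚ) - 1) * W (n + 1) - (2 * (n : ℚ) + 5) * W n = 3 * (D (n + 1) + D n) := by
  have h := T_first (-3) (fun i => by simpa using odd_ne i (-3) (by norm_num)) n
  rw [W_eq, W_eq]
  unfold D
  linear_combination 3 * h

lemma secW (n : ℕ) :
    ((n : ℚ) + 2) * (W (n + 2) - W (n + 1)) - ((n : ℚ) + 1) * (W (n + 1) - W n)
      = 6 * (2 * n + 3) * R (n + 1) := by
  have h := T_second (fun i => 1 / (2 * (i : ℚ) + (-3))) n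
  have h2 : T (fun i => (fun i : ℕ => 1 / (2 * (i : ℚ) + (-3))) (i + 1)) (n + 1) = R (n + 1) := by
    rw [R_eq]
    unfold T
    refine Finset.sum_congr rfl ?_
    intro i _
    push_cast
    rw [show 2 * ((i : ℚ) + 1) + (-3) = 2 * (i : ℚ) + (-1) by ring]
  rw [h2] at h
  rw [W_eq, W_eq, W_eq]
  linear_combination 3 * h

lemma secD (n : ℕ) :
    ((n : ℚ) + 2) * D (n + 2) = 3 * (2 * n + 3) * D (n + 1) - ((n : ℚ) + 1) * D n := by
  have h := T_second (fun _ => 1) n
  unfold D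
  linear_combination h

lemma secE (n : ℕ) :
    ((n : ℚ) + 2) * E (n + 2) = -(3 * (2 * n + 3) * E (n + 1)) - ((n : ℚ) + 1) * E n := by
  have h := T_second (fun i => (-2) ^ i) n
  have h2 : T (fun i => (fun i : ℕ => ((-2 : ℚ)) ^ i) (i + 1)) (n + 1) = -2 * E (n + 1) := by
    unfold E T
    rw [Finset.mul_sum]
    refine Finset.sum_congr rfl ?_
    intro i _
    simp only [pow_succ]
    ring
  rw [h2] at h
  unfold E at h ⊢
  linear_combination h

lemma E_zero : E 0 = 1 := by simp [E, T, b]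
lemma E_one : E 1 = -3 := by
  simp [E, T, b, Finset.sum_range_succ]
  norm_num
lemma D_zero : D 0 = 1 := by simp [D, T, b]
lemma D_one : D 1 = 3 := by
  simp [D, T, b, Finset.sum_range_succ]
  norm_num

lemma D_dual (n : ℕ) : D n = (-1) ^ n * E n ∧ D (n + 1) = (-1) ^ (n + 1) * E (n + 1) := by
  induction n with
  | zero => rw [D_zero, D_one, E_zero, E_one]; norm_num
  | succ n ih =>
    refine ⟨ih.2, ?_⟩
    have h1 := secD n
    have h2 := secE n
    have hn : ((n : ℚ) + 2) ≠ 0 := by positivity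
    have hp : ((-1 : ℚ)) ^ (n + 1 + 1) = (-1) ^ n := by rw [pow_succ, pow_succ]; ring
    have hp1 : ((-1 : ℚ)) ^ (n + 1) = -(-1) ^ n := by rw [pow_succ]; ring
    rw [ih.1, ih.2, hp1] at h1
    rw [hp, show n + 1 + 1 = n + 2 by ring]
    apply mul_left_cancel₀ hn
    rw [h1]
    linear_combination (-(-1 : ℚ) ^ n) * h2

lemma R_zero : R 0 = -1 := by simp [R]
lemma R_one : R 1 = 1 := by
  simp [R, Finset.sum_range_succ]
  norm_num
lemma W_zero : W 0 = -1 := by
  simp [W]
lemma W_one : W 1 = -7 := by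
  simp [W, Finset.sum_range_succ]
  norm_num

/-- Closed form for `∑_{k<n} (2k+1) R_k^2`. -/
theorem sumR (n : ℕ) :
    8 * ∑ k ∈ range (n + 1), (2 * (k : ℚ) + 1) * R k ^ 2
      = ((n : ℚ) + 1) * ((W (n + 1) - W n) * (R (n + 1) + R n)
        - (R (n + 1) + R n) * (R (n + 1) - R n)
        + ((n : ℚ) + 1) * (2 * (R (n + 1) - R n) ^ 2 - (R (n + 1) + R n) ^ 2)) := by
  induction n with
  | zero =>
    simp only [zero_add, Finset.sum_range_one, R_zero, R_one, W_zero, W_one]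
    norm_num
  | succ n ih =>
    rw [Finset.sum_range_succ, mul_add, ih]
    have hR0 := relR n
    have hW0 := relW n
    have hR1 := relR (n + 1)
    have hW1 := relW (n + 1)
    have hB := secW n
    have n2 : ((n : ℚ) + 2) ≠ 0 := by positivity
    have n3 : (2 * (n : ℚ) + 3) ≠ 0 := by positivity
    push_cast at hR1 hW1 ⊢
    rw [show n + 1 + 1 = n + 2 by ring] at hR1 hW1 ⊢
    have eW : W (n + 2) = W (n + 1) + (((n : ℚ) + 1) * (W (n + 1) - W n)
        + 6 * (2 * n + 3) * R (n + 1)) / ((n : ℚ) + 2) := by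
      field_simp
      linear_combination hB
    have eR0 : R n = (3 * (2 * (n : ℚ) + 1) * R (n + 1) - (2 * n - 1) * W (n + 1)
        + (2 * n + 5) * W n) / (3 * (2 * (n : ℚ) + 3)) := by
      field_simp
      linear_combination hW0 - 3 * hR0
    have eR2 : R (n + 2) = (3 * (2 * (n : ℚ) + 5) * R (n + 1) + (2 * n + 1) * W (n + 2)
        - (2 * n + 7) * W (n + 1)) / (3 * (2 * (n : ℚ) + 3)) := by
      field_simp
      linear_combination 3 * hR1 - hW1
    rw [eR2, eR0, eW]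
    field_simp
    ring

/-- Closed form for `∑_{k<n} (2k+1) W_k^2`. -/
theorem sumW (n : ℕ) :
    16 * ∑ k ∈ range (n + 1), (2 * (k : ℚ) + 1) * W k ^ 2
      = ((n : ℚ) + 1) * (-6 * (W (n + 1) + W n) * ((W (n + 1) - W n) + (R (n + 1) - R n))
        + 12 * (W (n + 1) - W n) * (R (n + 1) + R n)
        + ((n : ℚ) + 1) * (((W (n + 1) + W n) - 3 * (R (n + 1) + R n)) ^ 2
          - 18 * (R (n + 1) + R n) ^ 2 + 4 * (W (n + 1) - W n) ^ 2)) := by
  induction n with
  | zero =>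
    simp only [zero_add, Finset.sum_range_one, R_zero, R_one, W_zero, W_one]
    norm_num
  | succ n ih =>
    rw [Finset.sum_range_succ, mul_add, ih]
    have hR0 := relR n
    have hW0 := relW n
    have hR1 := relR (n + 1)
    have hW1 := relW (n + 1)
    have hB := secW n
    have n2 : ((n : ℚ) + 2) ≠ 0 := by positivity
    have n3 : (2 * (n : ℚ) + 3) ≠ 0 := by positivity
    push_cast at hR1 hW1 ⊢
    rw [show n + 1 + 1 = n + 2 by ring] at hR1 hW1 ⊢
    have eW : W (n + 2) = W (n + 1) + (((n : ℚ) + 1) * (W (n + 1) - W n)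
        + 6 * (2 * n + 3) * R (n + 1)) / ((n : ℚ) + 2) := by
      field_simp
      linear_combination hB
    have eR0 : R n = (3 * (2 * (n : ℚ) + 1) * R (n + 1) - (2 * n - 1) * W (n + 1)
        + (2 * n + 5) * W n) / (3 * (2 * (n : ℚ) + 3)) := by
      field_simp
      linear_combination hW0 - 3 * hR0
    have eR2 : R (n + 2) = (3 * (2 * (n : ℚ) + 5) * R (n + 1) + (2 * n + 1) * W (n + 2)
        - (2 * n + 7) * W (n + 1)) / (3 * (2 * (n : ℚ) + 3)) := by
      field_simp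
      linear_combination 3 * hR1 - hW1
    rw [eR2, eR0, eW]
    field_simp
    ring

end Pool.Agent.R507.C292
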