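import Mathlib
import Pool.Agent.R507.C292.Seqs

/-!
Integrality of `R_n`, `W_n` and the residues of `R_n` modulo 16.
-/

namespace Pool.Agent.R507.C292

open Finset

noncomputable def Dz (n : ℕ) : ℤ := ∑ i ∈ range (n + 1), (b n i : ℤ)

noncomputable def Ez (n : ℕ) : ℤ := ∑ i ∈ range (n + 1), (b n i : ℤ) * (-2) ^ i

noncomputable def Rz (n : ℕ) : ℤ :=
  -1 + 2 * ∑ i ∈ range n, (catalan i : ℤ) * ((n + i + 1).choose (2 * i + 2) : ℤ)

noncomputable def Sz (n : ℕ) : ℤ :=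
  ∑ i ∈ range n, (catalan i : ℤ) * ((n + i + 2).choose (2 * i + 4) : ℤ)

lemma Dz_cast (n : ℕ) : (Dz n : ℚ) = D n := by
  simp [Dz, D, T]

lemma Ez_cast (n : ℕ) : (Ez n : ℚ) = E n := by
  simp [Ez, E, T]

lemma cb_cat (i : ℕ) : ((2 * i + 2).choose (i + 1) : ℚ) = 2 * (2 * i + 1) * (catalan i : ℚ) := by
  have h1 := Nat.succ_mul_centralBinom_succ i
  have h2 := succ_mul_catalan_eq_centralBinom i
  rw [← h2] at h1
  have h3 : (i + 1) * (2 * i + 2).choose (i + 1) = (i + 1) * (2 * (2 * i + 1) * catalan i) := by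
    have : Nat.centralBinom (i + 1) = (2 * i + 2).choose (i + 1) := by
      simp [Nat.centralBinom, Nat.mul_add]
    rw [← this, h1]
    ring
  have h4 := Nat.eq_of_mul_eq_mul_left (Nat.succ_pos i) h3
  have := congrArg (Nat.cast : ℕ → ℚ) h4
  push_cast at this
  exact this

lemma cat_succ (i : ℕ) : ((i : ℚ) + 2) * (catalan (i + 1) : ℚ) = 2 * (2 * i + 1) * (catalan i : ℚ) := by
  have h1 := cb_cat i
  have h2 := succ_mul_catalan_eq_centralBinom (i + 1)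
  have h3 : Nat.centralBinom (i + 1) = (2 * i + 2).choose (i + 1) := by
    simp [Nat.centralBinom, Nat.mul_add]
  rw [h3] at h2
  have h4 := congrArg (Nat.cast : ℕ → ℚ) h2
  push_cast at h4
  rw [h1] at h4
  linear_combination h4

lemma Rz_cast (n : ℕ) : (Rz n : ℚ) = R n := by
  unfold Rz R
  rw [Finset.sum_range_succ']
  push_cast
  simp only [Nat.choose_zero_right, Nat.cast_one, mul_zero, zero_sub, mul_one]
  rw [Finset.mul_sum, add_comm]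
  congr 1
  · refine Finset.sum_congr rfl ?_
    intro i _
    have h := cb_cat i
    have hi : (2 * (i : ℚ) + 1) ≠ 0 := by positivity
    rw [show 2 * (i + 1) = 2 * i + 2 by ring, h, show n + (i + 1) = n + i + 1 by ring,
      show 2 * ((i : ℚ) + 1) - 1 = 2 * (i : ℚ) + 1 by ring]
    field_simp
  · norm_num

lemma W_sub_R (n : ℕ) :
    W n - R n = -8 * ((n + 1).choose 2 : ℚ) + 16 * (Sz n : ℚ) := by
  unfold W R
  rw [← Finset.sum_sub_distrib]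
  have hext : ∑ k ∈ range (n + 1),
      ((((n + k).choose (2 * k) : ℚ) * ((2 * k).choose k : ℚ)) * 3 / (2 * (k : ℚ) - 3)
        - (((n + k).choose (2 * k) : ℚ) * ((2 * k).choose k : ℚ)) / (2 * (k : ℚ) - 1))
      = ∑ k ∈ range (n + 2),
      ((((n + k).choose (2 * k) : ℚ) * ((2 * k).choose k : ℚ)) * 3 / (2 * (k : ℚ) - 3)
        - (((n + k).choose (2 * k) : ℚ) * ((2 * k).choose k : ℚ)) / (2 * (k : ℚ) - 1)) := by
    rw [Finset.sum_range_succ _ (n + 1)]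
    have : (n + (n + 1)).choose (2 * (n + 1)) = 0 := Nat.choose_eq_zero_of_lt (by omega)
    rw [this]
    simp
  rw [hext, Finset.sum_range_succ', Finset.sum_range_succ']
  unfold Sz
  push_cast
  rw [Finset.mul_sum]
  have h1 : ∑ i ∈ range n,
      ((((n + (i + 1 + 1)).choose (2 * (i + 1 + 1)) : ℚ) * ((2 * (i + 1 + 1)).choose (i + 1 + 1) : ℚ))
          * 3 / (2 * ((i : ℚ) + 1 + 1) - 3)
        - (((n + (i + 1 + 1)).choose (2 * (i + 1 + 1)) : ℚ)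
          * ((2 * (i + 1 + 1)).choose (i + 1 + 1) : ℚ)) / (2 * ((i : ℚ) + 1 + 1) - 1))
      = ∑ i ∈ range n, 16 * ((catalan i : ℚ) * ((n + i + 2).choose (2 * i + 4) : ℚ)) := by
    refine Finset.sum_congr rfl ?_
    intro i _
    have h := cb_cat (i + 1)
    have h' := cat_succ i
    have hi : (2 * (i : ℚ) + 1) ≠ 0 := by positivity
    have hi3 : (2 * (i : ℚ) + 3) ≠ 0 := by positivity
    push_cast at h
    rw [show 2 * (i + 1) + 2 = 2 * i + 4 by ring, show i + 1 + 1 = i + 2 by ring] at h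
    rw [show 2 * (i + 1 + 1) = 2 * i + 4 by ring, show n + (i + 1 + 1) = n + i + 2 by ring,
      show i + 1 + 1 = i + 2 by ring, h, show 2 * ((i : ℚ) + 1 + 1) - 3 = 2 * (i : ℚ) + 1 by ring,
      show 2 * ((i : ℚ) + 1 + 1) - 1 = 2 * (i : ℚ) + 3 by ring,
      show 2 * ((i : ℚ) + 1) + 1 = 2 * (i : ℚ) + 3 by ring]
    field_simp
    linear_combination (8 * ((n + i + 2).choose (2 * i + 4) : ℚ)) * h'
  rw [h1]
  norm_num
  ring

noncomputable def Wz (n : ℕ) : ℤ := Rz n - 8 * ((n + 1).choose 2 : ℤ) + 16 * Sz n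

lemma Wz_cast (n : ℕ) : (Wz n : ℚ) = W n := by
  have h := W_sub_R n
  unfold Wz
  push_cast
  rw [Rz_cast]
  linear_combination -h

lemma relRz (n : ℕ) :
    (2 * (n : ℤ) + 1) * Rz (n + 1) = (2 * (n : ℤ) + 3) * Rz n
      + (-1) ^ (n + 1) * (Ez (n + 1) - Ez n) := by
  have h := relR n
  have hd := D_dual n
  rw [hd.1, hd.2, ← Rz_cast, ← Rz_cast, ← Ez_cast, ← Ez_cast] at h
  have : (2 * (n : ℚ) + 1) * Rz (n + 1) = (2 * (n : ℚ) + 3) * Rz n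
      + (-1) ^ (n + 1) * (Ez (n + 1) - Ez n) := by
    rw [pow_succ] at h ⊢
    linear_combination h
  exact_mod_cast this

lemma b_one (n : ℕ) : (b n 1 : ℤ) = n * (n + 1) := by
  have h := Nat.add_one_mul_choose_eq n 1
  unfold b
  simp only [Nat.mul_one, Nat.choose_one_right] at h ⊢
  have : (n + 1).choose (1 + 1) * 2 = (n + 1) * n := by
    rw [h]
  push_cast
  have h2 := congrArg (Nat.cast : ℕ → ℤ) this
  push_cast at h2
  linear_combination h2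

lemma b_two (n : ℕ) : 4 * (b n 2 : ℤ) = (n - 1) * n * (n + 1) * (n + 2) := by
  have h := Nat.descFactorial_eq_factorial_mul_choose (n + 2) 4
  unfold b
  rcases n with _ | n
  · simp [Nat.choose_eq_zero_of_lt]
  · have h1 : (n + 1 + 2).descFactorial 4 = n * ((n + 1) * ((n + 2) * (n + 3))) := by
      simp [Nat.descFactorial]
    rw [h1] at h
    have h2 : (4 : ℕ).factorial = 24 := by decide
    have h3 : (2 * 2).choose 2 = 6 := by decide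
    rw [h2] at h
    rw [h3]
    have h4 := congrArg (Nat.cast : ℕ → ℤ) h
    push_cast at h4 ⊢
    linear_combination -h4

lemma Ez_mod (n : ℕ) :
    ((Ez n : ℤ) : ZMod 16) = 1 - 2 * n * (n + 1) + (n - 1) * n * (n + 1) * (n + 2) := by
  have hext : Ez n = ∑ i ∈ range (n + 3), (b n i : ℤ) * (-2) ^ i := by
    unfold Ez
    refine Finset.sum_subset (by intro x hx; simp at hx ⊢; omega) ?_
    intro x _ hx
    simp at hx
    rw [b_eq_zero (by omega)]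
    simp
  rw [Finset.sum_range_succ', Finset.sum_range_succ', Finset.sum_range_succ'] at hext
  have hdvd : (16 : ℤ) ∣ ∑ i ∈ range n, (b n (i + 1 + 1 + 1) : ℤ) * (-2) ^ (i + 1 + 1 + 1) := by
    refine Finset.dvd_sum ?_
    intro i _
    have h2 : 2 ∣ b n (i + 1 + 1 + 1) := by
      unfold b
      have := Nat.two_dvd_centralBinom_succ (i + 1 + 1)
      exact Dvd.dvd.mul_left this _
    obtain ⟨c, hc⟩ := h2
    rw [hc]
    exact ⟨-c * (-2) ^ i, by push_cast; ring⟩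
  obtain ⟨c, hc⟩ := hdvd
  rw [hc] at hext
  have h1 := b_one n
  have h2 := b_two n
  have h3 : Ez n = 16 * c + (n - 1) * n * (n + 1) * (n + 2) - 2 * n * (n + 1) + 1 := by
    rw [hext]
    simp only [zero_add, pow_one, pow_zero, mul_one, b_zero, Nat.cast_one]
    have e : (1 : ℕ) + 1 = 2 := rfl
    rw [e, h1]
    linear_combination h2
  rw [h3]
  have h16 : (16 : ZMod 16) = 0 := by decide
  push_cast
  rw [h16]
  ring

lemma step_aux (q j : ℕ) (t : ZMod 16) (h : ((Rz (8 * q + j) : ℤ) : ZMod 16) = t) :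
    (2 * (8 * (q : ZMod 16) + j) + 1) * ((Rz (8 * q + j + 1) : ℤ) : ZMod 16)
      = (2 * (8 * (q : ZMod 16) + j) + 3) * t
        + (-1) ^ (j + 1) * (-4 * (8 * (q : ZMod 16) + j + 1)
          + 4 * (8 * (q : ZMod 16) + j) * (8 * (q : ZMod 16) + j + 1) * (8 * (q : ZMod 16) + j + 2)) := by
  have h1 := relRz (8 * q + j)
  have h2 := congrArg (Int.cast : ℤ → ZMod 16) h1
  push_cast at h2
  rw [Ez_mod, Ez_mod, h] at h2
  have h3 : ((-1 : ZMod 16)) ^ (8 * q + j + 1) = (-1) ^ (j + 1) := by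
    rw [show 8 * q + j + 1 = 2 * (4 * q) + (j + 1) by ring, pow_add, pow_mul]
    simp
  rw [h3] at h2
  push_cast at h2
  rw [h2]
  ring

lemma dec0 : ∀ x y : ZMod 16, (2 * (8 * x + ((0 : ℕ) : ZMod 16)) + 1) * y
      = (2 * (8 * x + ((0 : ℕ) : ZMod 16)) + 3) * (-1)
        + (-1) ^ (0 + 1) * (-4 * (8 * x + ((0 : ℕ) : ZMod 16) + 1)
          + 4 * (8 * x + ((0 : ℕ) : ZMod 16)) * (8 * x + ((0 : ℕ) : ZMod 16) + 1)
            * (8 * x + ((0 : ℕ) : ZMod 16) + 2)) → y = 1 := by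
  decide

lemma dec1 : ∀ x y : ZMod 16, (2 * (8 * x + ((1 : ℕ) : ZMod 16)) + 1) * y
      = (2 * (8 * x + ((1 : ℕ) : ZMod 16)) + 3) * (1)
        + (-1) ^ (1 + 1) * (-4 * (8 * x + ((1 : ℕ) : ZMod 16) + 1)
          + 4 * (8 * x + ((1 : ℕ) : ZMod 16)) * (8 * x + ((1 : ℕ) : ZMod 16) + 1)
            * (8 * x + ((1 : ℕ) : ZMod 16) + 2)) → y = 7 := by
  decide

lemma dec2 : ∀ x y : ZMod 16, (2 * (8 * x + ((2 : ℕ) : ZMod 16)) + 1) * y
      = (2 * (8 * x + ((2 : ℕ) : ZMod 16)) + 3) * (7)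
        + (-1) ^ (2 + 1) * (-4 * (8 * x + ((2 : ℕ) : ZMod 16) + 1)
          + 4 * (8 * x + ((2 : ℕ) : ZMod 16)) * (8 * x + ((2 : ℕ) : ZMod 16) + 1)
            * (8 * x + ((2 : ℕ) : ZMod 16) + 2)) → y = 9 := by
  decide

lemma dec3 : ∀ x y : ZMod 16, (2 * (8 * x + ((3 : ℕ) : ZMod 16)) + 1) * y
      = (2 * (8 * x + ((3 : ℕ) : ZMod 16)) + 3) * (9)
        + (-1) ^ (3 + 1) * (-4 * (8 * x + ((3 : ℕ) : ZMod 16) + 1)
          + 4 * (8 * x + ((3 : ℕ) : ZMod 16)) * (8 * x + ((3 : ℕ) : ZMod 16) + 1)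
            * (8 * x + ((3 : ℕ) : ZMod 16) + 2)) → y = 7 := by
  decide

lemma dec4 : ∀ x y : ZMod 16, (2 * (8 * x + ((4 : ℕ) : ZMod 16)) + 1) * y
      = (2 * (8 * x + ((4 : ℕ) : ZMod 16)) + 3) * (7)
        + (-1) ^ (4 + 1) * (-4 * (8 * x + ((4 : ℕ) : ZMod 16) + 1)
          + 4 * (8 * x + ((4 : ℕ) : ZMod 16)) * (8 * x + ((4 : ℕ) : ZMod 16) + 1)
            * (8 * x + ((4 : ℕ) : ZMod 16) + 2)) → y = 9 := by
  decide

lemma dec5 : ∀ x y : ZMod 16, (2 * (8 * x + ((5 : ℕ) : ZMod 16)) + 1) * y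
      = (2 * (8 * x + ((5 : ℕ) : ZMod 16)) + 3) * (9)
        + (-1) ^ (5 + 1) * (-4 * (8 * x + ((5 : ℕ) : ZMod 16) + 1)
          + 4 * (8 * x + ((5 : ℕ) : ZMod 16)) * (8 * x + ((5 : ℕ) : ZMod 16) + 1)
            * (8 * x + ((5 : ℕ) : ZMod 16) + 2)) → y = -1 := by
  decide

lemma dec6 : ∀ x y : ZMod 16, (2 * (8 * x + ((6 : ℕ) : ZMod 16)) + 1) * y
      = (2 * (8 * x + ((6 : ℕ) : ZMod 16)) + 3) * (-1)
        + (-1) ^ (6 + 1) * (-4 * (8 * x + ((6 : ℕ) : ZMod 16) + 1)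
          + 4 * (8 * x + ((6 : ℕ) : ZMod 16)) * (8 * x + ((6 : ℕ) : ZMod 16) + 1)
            * (8 * x + ((6 : ℕ) : ZMod 16) + 2)) → y = 1 := by
  decide

lemma dec7 : ∀ x y : ZMod 16, (2 * (8 * x + ((7 : ℕ) : ZMod 16)) + 1) * y
      = (2 * (8 * x + ((7 : ℕ) : ZMod 16)) + 3) * (1)
        + (-1) ^ (7 + 1) * (-4 * (8 * x + ((7 : ℕ) : ZMod 16) + 1)
          + 4 * (8 * x + ((7 : ℕ) : ZMod 16)) * (8 * x + ((7 : ℕ) : ZMod 16) + 1)
            * (8 * x + ((7 : ℕ) : ZMod 16) + 2)) → y = -1 := by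
  decide

/-- Residues of `R_n` modulo 16. -/
lemma Rz_table (q : ℕ) :
    ((Rz (8 * q) : ℤ) : ZMod 16) = -1 ∧ ((Rz (8 * q + 1) : ℤ) : ZMod 16) = 1
      ∧ ((Rz (8 * q + 2) : ℤ) : ZMod 16) = 7 ∧ ((Rz (8 * q + 3) : ℤ) : ZMod 16) = 9
      ∧ ((Rz (8 * q + 4) : ℤ) : ZMod 16) = 7 ∧ ((Rz (8 * q + 5) : ℤ) : ZMod 16) = 9
      ∧ ((Rz (8 * q + 6) : ℤ) : ZMod 16) = -1 ∧ ((Rz (8 * q + 7) : ℤ) : ZMod 16) = 1
      ∧ ((Rz (8 * q + 8) : ℤ) : ZMod 16) = -1 := by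
  have base : ((Rz (8 * q) : ℤ) : ZMod 16) = -1 → _ := fun h0 => by
    have h1 := dec0 _ _ (step_aux q 0 _ h0)
    have h2 := dec1 _ _ (step_aux q 1 _ h1)
    have h3 := dec2 _ _ (step_aux q 2 _ h2)
    have h4 := dec3 _ _ (step_aux q 3 _ h3)
    have h5 := dec4 _ _ (step_aux q 4 _ h4)
    have h6 := dec5 _ _ (step_aux q 5 _ h5)
    have h7 := dec6 _ _ (step_aux q 6 _ h6)
    have h8 := dec7 _ _ (step_aux q 7 _ h7)
    exact (⟨h0, h1, h2, h3, h4, h5, h6, h7, h8⟩ : ((Rz (8 * q) : ℤ) : ZMod 16) = -1 ∧ ((Rz (8 * q + 1) : ℤ) : ZMod 16) = 1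
      ∧ ((Rz (8 * q + 2) : ℤ) : ZMod 16) = 7 ∧ ((Rz (8 * q + 3) : ℤ) : ZMod 16) = 9
      ∧ ((Rz (8 * q + 4) : ℤ) : ZMod 16) = 7 ∧ ((Rz (8 * q + 5) : ℤ) : ZMod 16) = 9
      ∧ ((Rz (8 * q + 6) : ℤ) : ZMod 16) = -1 ∧ ((Rz (8 * q + 7) : ℤ) : ZMod 16) = 1
      ∧ ((Rz (8 * q + 8) : ℤ) : ZMod 16) = -1)
  have h0 : ∀ q : ℕ, ((Rz (8 * q) : ℤ) : ZMod 16) = -1 := by
    intro q
    induction q with
    | zero => simp [Rz]
    | succ q ih =>
      have h1 := dec0 _ _ (step_aux q 0 _ ih)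
      have h2 := dec1 _ _ (step_aux q 1 _ h1)
      have h3 := dec2 _ _ (step_aux q 2 _ h2)
      have h4 := dec3 _ _ (step_aux q 3 _ h3)
      have h5 := dec4 _ _ (step_aux q 4 _ h4)
      have h6 := dec5 _ _ (step_aux q 5 _ h5)
      have h7 := dec6 _ _ (step_aux q 6 _ h6)
      have h8 := dec7 _ _ (step_aux q 7 _ h7)
      exact h8
  exact base (h0 q)

lemma parity_aux (e u : ℤ) : ((e : ZMod 16) = u) ↔ (16 : ℤ) ∣ e - u := by
  rw [← sub_eq_zero, ← Int.cast_sub, ZMod.intCast_zmod_eq_zero_iff_dvd]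
  rfl

/-- `R_n = (-1)^(n+1) + 8 u_n` with `u_n + u_(n+1)` even for `n` even. -/
lemma Rz_form (n : ℕ) : ∃ e u v : ℤ, (e = 1 ∨ e = -1) ∧ Rz n = -e + 8 * u ∧ Rz (n + 1) = e + 8 * v
    ∧ (n % 2 = 0 → 2 ∣ u + v) := by
  obtain ⟨q, r, hr, rfl⟩ : ∃ q r, r < 8 ∧ n = 8 * q + r :=
    ⟨n / 8, n % 8, Nat.mod_lt _ (by norm_num), by omega⟩
  obtain ⟨h0, h1, h2, h3, h4, h5, h6, h7, h8⟩ := Rz_table q
  have c (m : ℕ) (t : ℤ) (h : ((Rz m : ℤ) : ZMod 16) = (t : ZMod 16)) : (16 : ℤ) ∣ Rz m - t :=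
    (parity_aux _ _).1 h
  have k0 := c _ (-1) (by rw [h0]; norm_num)
  have k1 := c _ 1 (by rw [h1]; norm_num)
  have k2 := c _ 7 (by rw [h2]; norm_num)
  have k3 := c _ 9 (by rw [h3]; norm_num)
  have k4 := c _ 7 (by rw [h4]; norm_num)
  have k5 := c _ 9 (by rw [h5]; norm_num)
  have k6 := c _ (-1) (by rw [h6]; norm_num)
  have k7 := c _ 1 (by rw [h7]; norm_num)
  have k8 := c _ (-1) (by rw [h8]; norm_num)
  have k2' : (16 : ℤ) ∣ Rz (8 * q + 1 + 1) - 7 := k2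
  have k3' : (16 : ℤ) ∣ Rz (8 * q + 2 + 1) - 9 := k3
  have k4' : (16 : ℤ) ∣ Rz (8 * q + 3 + 1) - 7 := k4
  have k5' : (16 : ℤ) ∣ Rz (8 * q + 4 + 1) - 9 := k5
  have k6' : (16 : ℤ) ∣ Rz (8 * q + 5 + 1) - (-1) := k6
  have k7' : (16 : ℤ) ∣ Rz (8 * q + 6 + 1) - 1 := k7
  have k8' : (16 : ℤ) ∣ Rz (8 * q + 7 + 1) - (-1) := k8
  interval_cases r
  · exact ⟨1, (Rz (8 * q) + 1) / 8, (Rz (8 * q + 1) - 1) / 8, Or.inl rfl,
      by simp only [add_zero]; omega, by simp only [add_zero]; omega, by intro _; omega⟩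
  · exact ⟨-1, (Rz (8 * q + 1) - 1) / 8, (Rz (8 * q + 1 + 1) + 1) / 8, Or.inr rfl,
      by omega, by omega, by intro _; omega⟩
  · exact ⟨1, (Rz (8 * q + 2) + 1) / 8, (Rz (8 * q + 2 + 1) - 1) / 8, Or.inl rfl,
      by omega, by omega, by intro _; omega⟩
  · exact ⟨-1, (Rz (8 * q + 3) - 1) / 8, (Rz (8 * q + 3 + 1) + 1) / 8, Or.inr rfl,
      by omega, by omega, by intro _; omega⟩
  · exact ⟨1, (Rz (8 * q + 4) + 1) / 8, (Rz (8 * q + 4 + 1) - 1) / 8, Or.inl rfl,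
      by omega, by omega, by intro _; omega⟩
  · exact ⟨-1, (Rz (8 * q + 5) - 1) / 8, (Rz (8 * q + 5 + 1) + 1) / 8, Or.inr rfl,
      by omega, by omega, by intro _; omega⟩
  · exact ⟨1, (Rz (8 * q + 6) + 1) / 8, (Rz (8 * q + 6 + 1) - 1) / 8, Or.inl rfl,
      by omega, by omega, by intro _; omega⟩
  · exact ⟨-1, (Rz (8 * q + 7) - 1) / 8, (Rz (8 * q + 7 + 1) + 1) / 8, Or.inr rfl,
      by omega, by omega, by intro _; omega⟩

end Pool.Agent.R507.C292
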