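import Mathlib
import Pool.Agent.R507.C292.Mod

/-!
The congruences for the sums of `(2k+1) R_k^2` modulo `16n` and `(2k+1) W_k^2` modulo `8n`.
-/

namespace Pool.Agent.R507.C292

open Finset

lemma choose_two_add (m : ℕ) : (((m + 1 + 1).choose 2 : ℕ) : ℤ) = ((m + 1).choose 2 : ℤ) + (m + 1) := by
  have : (m + 1 + 1).choose 2 = (m + 1).choose 2 + (m + 1) := by
    rw [Nat.choose_succ_succ (m + 1) 1]
    simp [add_comm]
  rw [this]
  push_cast
  ring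

/-- `C(m+2,2) + C(m+1,2) = (m+1)^2`. -/
lemma choose_two_sum (m : ℕ) :
    (((m + 1 + 1).choose 2 : ℕ) : ℤ) + ((m + 1).choose 2 : ℤ) = ((m : ℤ) + 1) ^ 2 := by
  induction m with
  | zero => simp
  | succ m ih =>
    have h1 := choose_two_add m
    have h2 := choose_two_add (m + 1)
    push_cast at h2 ⊢
    linear_combination ih + h1 + h2

theorem mainR (m : ℕ) : ∃ z : ℤ, ∑ k ∈ range (m + 1), (2 * (k : ℚ) + 1) * R k ^ 2
    = ((m + 1 : ℕ) : ℚ) ^ 2 + 16 * ((m + 1 : ℕ) : ℚ) * z := by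
  obtain ⟨e, u, v, he, hu, hv, hpar⟩ := Rz_form m
  have hS := sumR m
  have hw1 : (W (m + 1) : ℚ) - W m = 2 * e + 8 * (v - u) - 8 * ((m : ℚ) + 1)
      + 16 * ((Sz (m + 1) : ℚ) - Sz m) := by
    have a1 := W_sub_R (m + 1)
    have a2 := W_sub_R m
    have a3 := choose_two_add m
    have a4 : (((m + 1 + 1).choose 2 : ℕ) : ℚ) = ((m + 1).choose 2 : ℚ) + (m + 1) := by
      exact_mod_cast a3
    rw [← Rz_cast, hv] at a1
    rw [← Rz_cast, hu] at a2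
    push_cast at a1 a2
    linear_combination a1 - a2 - 8 * a4
  rw [← Rz_cast (m + 1), ← Rz_cast m, hu, hv, hw1] at hS
  have he2 : (e : ℚ) ^ 2 = 1 := by rcases he with h | h <;> rw [h] <;> norm_num
  have he2' : e ^ 2 = 1 := by rcases he with h | h <;> rw [h] <;> norm_num
  set s : ℤ := Sz (m + 1) - Sz m with hs
  -- the integer `X` with sum = n^2 + n X
  have hX : ∑ k ∈ range (m + 1), (2 * (k : ℚ) + 1) * R k ^ 2
      = ((m : ℚ) + 1) ^ 2 + ((m : ℚ) + 1) * (8 * (((m + 1) * (e * (v - u) - (u + v) - (u + v) ^ 2)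
        + 2 * (s * (u + v)) + 2 * (m + 1) * (v - u) ^ 2 : ℤ) : ℚ)) := by
    have h8 : (8 : ℚ) ≠ 0 := by norm_num
    apply mul_left_cancel₀ h8
    rw [hS, hs]
    push_cast
    linear_combination (8 * ((m : ℚ) + 1) ^ 2) * he2
  have hdiv : (2 : ℤ) ∣ (m + 1) * (e * (v - u) - (u + v) - (u + v) ^ 2)
        + 2 * (s * (u + v)) + 2 * (m + 1) * (v - u) ^ 2 := by
    have h1 : (2 : ℤ) ∣ (m + 1) * (e * (v - u) - (u + v) - (u + v) ^ 2) := by
      rcases Nat.even_or_odd m with hm | hm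
      · have hd := hpar (Nat.even_iff.1 hm)
        obtain ⟨c, hc⟩ := hd
        refine Dvd.dvd.mul_left ?_ _
        refine ⟨e * (v - c) - c - 2 * c ^ 2, ?_⟩
        have : u = 2 * c - v := by omega
        rw [this]
        ring
      · obtain ⟨c, hc⟩ := hm
        refine Dvd.dvd.mul_right ?_ _
        exact ⟨c + 1, by rw [hc]; push_cast; ring⟩
    obtain ⟨c, hc⟩ := h1
    exact ⟨c + s * (u + v) + (m + 1) * (v - u) ^ 2, by rw [hc]; ring⟩
  obtain ⟨z, hz⟩ := hdiv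
  refine ⟨z, ?_⟩
  rw [hX, hz]
  push_cast
  ring

theorem mainW (m : ℕ) : ∃ z : ℤ, ∑ k ∈ range (m + 1), (2 * (k : ℚ) + 1) * W k ^ 2
    = ((m + 1 : ℕ) : ℚ) ^ 2 + 8 * ((m + 1 : ℕ) : ℚ) * z := by
  obtain ⟨e, u, v, he, hu, hv, -⟩ := Rz_form m
  have hS := sumW m
  have a1 := W_sub_R (m + 1)
  have a2 := W_sub_R m
  have a3 := choose_two_add m
  have a4 : (((m + 1 + 1).choose 2 : ℕ) : ℚ) = ((m + 1).choose 2 : ℚ) + (m + 1) := by
    exact_mod_cast a3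
  have a5 : (((m + 1 + 1).choose 2 : ℕ) : ℚ) + ((m + 1).choose 2 : ℚ) = ((m : ℚ) + 1) ^ 2 := by
    exact_mod_cast choose_two_sum m
  rw [← Rz_cast, hv] at a1
  rw [← Rz_cast, hu] at a2
  push_cast at a1 a2
  set s : ℤ := Sz (m + 1) - Sz m with hs
  set t : ℤ := Sz (m + 1) + Sz m with ht
  have hsq : (s : ℚ) = (Sz (m + 1) : ℚ) - Sz m := by rw [hs]; push_cast; ring
  have htq : (t : ℚ) = (Sz (m + 1) : ℚ) + Sz m := by rw [ht]; push_cast; ring
  have hw1 : (W (m + 1) : ℚ) - W m = 2 * e + 8 * (v - u) - 8 * ((m : ℚ) + 1) + 16 * s := by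
    rw [hsq]
    linear_combination a1 - a2 - 8 * a4
  have hw2 : (W (m + 1) : ℚ) + W m = 8 * (u + v) - 8 * ((m : ℚ) + 1) ^ 2 + 16 * t := by
    rw [htq]
    linear_combination a1 + a2 - 8 * a5
  rw [← Rz_cast (m + 1), ← Rz_cast m, hu, hv, hw1, hw2] at hS
  have he2 : (e : ℚ) ^ 2 = 1 := by rcases he with h | h <;> rw [h] <;> norm_num
  -- `a`, `c`, `y`
  set c : ℤ := u + v with hc
  set a : ℤ := c - (m + 1) ^ 2 + 2 * t with ha
  set y : ℤ := (v - u) - (m + 1) + 2 * s with hy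
  have hX : ∑ k ∈ range (m + 1), (2 * (k : ℚ) + 1) * W k ^ 2
      = ((m : ℚ) + 1) ^ 2 + ((m : ℚ) + 1) * (4 * ((
        -3 * a * (e + 2 * (v - u) + 2 * y) + 3 * c * (e + 4 * y)
        + (m + 1) * ((a - 3 * c) ^ 2 - 18 * c ^ 2 + 2 * e * y + 4 * y ^ 2) : ℤ) : ℚ)) := by
    have h16 : (16 : ℚ) ≠ 0 := by norm_num
    apply mul_left_cancel₀ h16
    rw [hS, ha, hy, hc]
    push_cast
    linear_combination (16 * ((m : ℚ) + 1) ^ 2) * he2
  have hdiv : (2 : ℤ) ∣ -3 * a * (e + 2 * (v - u) + 2 * y) + 3 * c * (e + 4 * y)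
        + (m + 1) * ((a - 3 * c) ^ 2 - 18 * c ^ 2 + 2 * e * y + 4 * y ^ 2) := by
    have key : ∀ a c e m t vu y : ZMod 2, e = 1 → a = c - (m + 1) ^ 2 + 2 * t →
        -3 * a * (e + 2 * vu + 2 * y) + 3 * c * (e + 4 * y)
        + (m + 1) * ((a - 3 * c) ^ 2 - 18 * c ^ 2 + 2 * e * y + 4 * y ^ 2) = 0 := by
      decide
    have hk := key (a : ZMod 2) (c : ZMod 2) (e : ZMod 2) (m : ZMod 2) (t : ZMod 2)
      ((v - u : ℤ) : ZMod 2) (y : ZMod 2)
      (by rcases he with h | h <;> rw [h] <;> decide)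
      (by rw [ha]; push_cast; ring)
    have : ((-3 * a * (e + 2 * (v - u) + 2 * y) + 3 * c * (e + 4 * y)
        + (m + 1) * ((a - 3 * c) ^ 2 - 18 * c ^ 2 + 2 * e * y + 4 * y ^ 2) : ℤ) : ZMod 2) = 0 := by
      push_cast at hk ⊢
      exact hk
    exact (ZMod.intCast_zmod_eq_zero_iff_dvd _ 2).1 this
  obtain ⟨z, hz⟩ := hdiv
  refine ⟨z, ?_⟩
  rw [hX, hz]
  push_cast
  ring

end Pool.Agent.R507.C292
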